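import Pool.Agent.Work.MP_b0b133_an.G.Sharp4
import Pool.Agent.Work.MP_b0b133_an.G.E
import Pool.Agent.Work.MP_b0b133_an.D5.Main
import Pool.Agent.Work.MP_b0b133_an.D6.FI

/-!
# The sharp extension inequality on the half-cone in dimensions four, five and six

`f_⋆ = e^{-|ξ|}` is a maximizer of the `L² → L^p` extension inequality, `p = 2 (d + 1) / (d - 1)`,
on the half-cone `{τ = |ξ|}` of `ℝ × ℝᵈ`, with the Lorentz invariant measure `dξ / |ξ|`, for
`d = 4`, `d = 5` and `d = 6`.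
-/

set_option autoImplicit false
open MeasureTheory Complex Filter
open scoped ENNReal Topology

namespace Pool.Agent.Results.MP_b0b133_an.ConeSharp

open Pool.Agent.ConeG (Rd Rs sig coneExt fstar)

variable {d : ℕ}

/-- the exponent `p = 2 (d + 1) / (d - 1)` -/
noncomputable def p (d : ℕ) : ℝ≥0∞ := ENNReal.ofReal (2 * ((d : ℝ) + 1) / ((d : ℝ) - 1))

/-- the norm of `L²(dξ/|ξ|)` -/
noncomputable def normTwo (f : Rd d → ℂ) : ℝ≥0∞ := eLpNorm f 2 (sig d)

/-- the norm of `L^p(ℝ × ℝᵈ)` -/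
noncomputable def normP (u : Rs d → ℂ) : ℝ≥0∞ := eLpNorm u (p d) volume

/-- `f` is in `L²(dξ/|ξ|)` -/
def InTwo (f : Rd d → ℂ) : Prop := MemLp f 2 (sig d)

/-- `u` is in `L^p(ℝ × ℝᵈ)` -/
def InP (u : Rs d → ℂ) : Prop := MemLp u (p d) volume

/-- `u` is the extension of `f`: the `L^p`-limit of the extension integrals of integrable
`L²`-functions which converge to `f` in `L²` -/
def IsExt (f : Rd d → ℂ) (u : Rs d → ℂ) : Prop :=
  InTwo f ∧ InP u ∧ ∃ s : ℕ → Rd d → ℂ, (∀ n, Integrable (s n) (sig d) ∧ InTwo (s n)) ∧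
    Tendsto (fun n => normTwo (s n - f)) atTop (𝓝 0) ∧
    Tendsto (fun n => normP (coneExt (s n) - u)) atTop (𝓝 0)

/-- The theorem: for `d = 4`, `d = 5` and `d = 6` the extension of every `f ∈ L²(dξ/|ξ|)` exists in `L^p`
and is unique, it is the extension integral if `f` is integrable, and `f_⋆ = e^{-|ξ|}` is a
maximizer. -/
theorem result (d : ℕ) (hd : d = 4 ∨ d = 5 ∨ d = 6) :
    (∀ f : Rd d → ℂ, InTwo f → ∃ u, IsExt f u ∧ ∀ u', IsExt f u' → u' =ᵐ[volume] u) ∧
    (∀ f : Rd d → ℂ, InTwo f → Integrable f (sig d) → IsExt f (coneExt f)) ∧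
    (InTwo (fstar (d := d)) ∧ Integrable (fstar (d := d)) (sig d) ∧
      normTwo (fstar (d := d)) ≠ 0) ∧
    ∀ (f : Rd d → ℂ) (u : Rs d → ℂ), IsExt f u →
      normP u * normTwo (fstar (d := d)) ≤ normP (coneExt (fstar (d := d))) * normTwo f := by
  have : Fact (2 ≤ d) := ⟨by rcases hd with rfl | rfl | rfl <;> norm_num⟩
  have hs : Pool.Agent.ConeG.Sharp d := by
    rcases hd with rfl | rfl | rfl
    · exact Pool.Agent.ConeG.sharp4
    · exact Pool.Agent.ConeG.sharp5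
    · exact Pool.Agent.ConeG.sharp_6
  exact Pool.Agent.ConeG.result_of_sharp (Pool.Agent.ConeG.stri d) hs

end Pool.Agent.Results.MP_b0b133_an.ConeSharp
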